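import Pool.Agent.LPW.StmtsS

/-!
# Squad LPW, row DET: divisibility of a determinant
-/

set_option autoImplicit false

open Polynomial

namespace Pool.Agent.LPW.H64

/-- the value of a polynomial in two variables near `η` -/
lemma value_eq {A : Type} [CommRing A] {m I : ℕ} (r : A[X][X]) (hr : r.natDegree < m)
    (hI : ∀ j : Fin m, (r.coeff j).natDegree < I) (η q₀ x y : A) :
    (r.map (evalRingHom (η + q₀ * x))).eval y =
      ∑ s : Fin I × Fin m, ((taylor η (r.coeff s.2)).coeff s.1 * q₀ ^ (s.1 : ℕ)) *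
        (x ^ (s.1 : ℕ) * y ^ (s.2 : ℕ)) := by
  rw [eval_map, eval₂_eq_sum_range' _ hr, Finset.sum_range, Fintype.sum_prod_type_right]
  refine Finset.sum_congr rfl fun j _ => ?_
  have h1 : (r.coeff j).eval (η + q₀ * x) = (taylor η (r.coeff j)).eval (q₀ * x) := by
    rw [taylor_eval, add_comm]
  rw [coe_evalRingHom, h1, eval_eq_sum_range' (n := I) (by rw [natDegree_taylor]; exact hI j),
    Finset.sum_range, Finset.sum_mul]
  refine Finset.sum_congr rfl fun i _ => ?_
  rw [mul_pow]
  ring

/-- the determinant of a product is a sum over the maps of the rows -/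
lemma det_sum {A κ : Type} [CommRing A] [Fintype κ] {L : ℕ} (c : Fin L → κ → A)
    (E : κ → Fin L → A) :
    (Matrix.of fun a b => ∑ s, c a s * E s b).det =
      ∑ τ : Fin L → κ, (∏ a, c a (τ a)) * (Matrix.of fun a b => E (τ a) b).det := by
  classical
  have h1 : (Matrix.of fun a b => ∑ s, c a s * E s b).det =
      (Matrix.detRowAlternating (R := A) (n := Fin L)) fun a => ∑ s, c a s • E s := by
    change Matrix.det _ = Matrix.det _
    congr 1
    funext a b
    simp only [Matrix.of_apply, Finset.sum_apply, Pi.smul_apply, smul_eq_mul]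
  rw [h1]
  have h2 := (Matrix.detRowAlternating (R := A) (n := Fin L)).toMultilinearMap.map_sum
    (α := fun _ => κ) fun a s => c a s • E s
  rw [AlternatingMap.coe_multilinearMap] at h2
  rw [h2]
  refine Finset.sum_congr rfl fun τ _ => ?_
  have h3 := (Matrix.detRowAlternating (R := A) (n := Fin L)).toMultilinearMap.map_smul_univ
    (fun a => c a (τ a)) fun a => E (τ a)
  rw [AlternatingMap.coe_multilinearMap] at h3
  rw [h3, smul_eq_mul]
  rfl

/-- DET -/
theorem det : DetStmt := by
  intro hsum A _ q₀ m L hm r hr η ξ y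
  classical
  obtain ⟨I, hI⟩ : ∃ I, ∀ a, ∀ j : Fin m, ((r a).coeff j).natDegree < I := by
    refine ⟨(Finset.univ.sup fun s : Fin L × Fin m => ((r s.1).coeff s.2).natDegree) + 1,
      fun a j => Nat.lt_succ_of_le ?_⟩
    exact Finset.le_sup (f := fun s : Fin L × Fin m => ((r s.1).coeff s.2).natDegree)
      (Finset.mem_univ (a, j))
  have h1 : (Matrix.of fun a b => ((r a).map (evalRingHom (η + q₀ * ξ b))).eval (y b)) =
      Matrix.of fun a b => ∑ s : Fin I × Fin m,
        ((taylor η ((r a).coeff s.2)).coeff s.1 * q₀ ^ (s.1 : ℕ)) *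
          (ξ b ^ (s.1 : ℕ) * y b ^ (s.2 : ℕ)) := by
    ext a b
    rw [Matrix.of_apply, Matrix.of_apply]
    exact value_eq (r a) (hr a) (hI a) η q₀ (ξ b) (y b)
  rw [h1, det_sum (fun a (s : Fin I × Fin m) =>
    (taylor η ((r a).coeff s.2)).coeff s.1 * q₀ ^ (s.1 : ℕ))
    fun s b => ξ b ^ (s.1 : ℕ) * y b ^ (s.2 : ℕ)]
  refine Finset.dvd_sum fun τ _ => ?_
  by_cases hτ : Function.Injective τ
  · refine Dvd.dvd.mul_right ?_ _
    rw [Finset.prod_mul_distrib, Finset.prod_pow_eq_pow_sum]
    refine Dvd.dvd.mul_left (pow_dvd_pow _ ?_) _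
    refine hsum m L (fun a => (((τ a).1 : ℕ), (τ a).2)) fun a b hab => hτ ?_
    have h2 := Prod.mk.inj hab
    exact Prod.ext (Fin.ext h2.1) h2.2
  · have h2 : (Matrix.of fun a b => ξ b ^ ((τ a).1 : ℕ) * y b ^ ((τ a).2 : ℕ)).det = 0 := by
      obtain ⟨a, b, hab, hne⟩ : ∃ a b, τ a = τ b ∧ a ≠ b := by
        by_contra hcon
        push Not at hcon
        exact hτ fun a b h => hcon a b h
      refine Matrix.det_zero_of_row_eq hne ?_
      funext c
      simp only [Matrix.of_apply, hab]
    rw [h2, mul_zero]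
    exact dvd_zero _

end Pool.Agent.LPW.H64
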